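import Pool.Agent.W829.RP.Defs

/-!
# Project RP: the function `vf` is measurable
-/

set_option autoImplicit false

open MeasureTheory Set Module Filter Topology
open scoped ENNReal

namespace Pool.Agent.W762.RP

open Pool.Agent.W829.RP

theorem cap_closed {V : Type} [NormedAddCommGroup V] [NormedSpace ℝ V] {K : Set V}
    (hK : IsClosed K) (l : V →L[ℝ] ℝ) (s : ℝ) : IsClosed (cap K l s) :=
  hK.inter (isClosed_le continuous_const l.continuous)

theorem cap_anti {V : Type} [NormedAddCommGroup V] [NormedSpace ℝ V] (K : Set V)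
    (l : V →L[ℝ] ℝ) {s s' : ℝ} (h : s ≤ s') : cap K l s' ⊆ cap K l s :=
  fun _ hx => ⟨hx.1, h.trans hx.2⟩

theorem open_lt {V : Type} [NormedAddCommGroup V] [NormedSpace ℝ V] [FiniteDimensional ℝ V]
    [MeasureSpace V] [BorelSpace V] [(volume : Measure V).IsAddHaarMeasure] (K : Set V)
    (hK : IsBody K) (l : V →L[ℝ] ℝ) (t : ℝ≥0∞) : IsOpen {s : ℝ | volume (cap K l s) < t} := by
  rw [isOpen_iff_mem_nhds]
  intro s hs
  have hs' : volume (cap K l s) < t := hs
  have hfin : ∀ s, volume (cap K l s) ≠ ⊤ := fun s =>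
    ne_top_of_le_ne_top hK.2.1.measure_lt_top.ne (measure_mono fun x hx => hx.1)
  have h1 : Tendsto (fun n : ℕ => volume (cap K l (s - 1 / ((n : ℝ) + 1)))) atTop
      (𝓝 (volume (⋂ n : ℕ, cap K l (s - 1 / ((n : ℝ) + 1))))) := by
    refine tendsto_measure_iInter_atTop (fun n =>
      (cap_closed hK.2.1.isClosed l _).measurableSet.nullMeasurableSet) ?_ ⟨0, hfin _⟩
    intro n m hnm
    refine cap_anti K l ?_
    have h2 : 1 / ((m : ℝ) + 1) ≤ 1 / ((n : ℝ) + 1) := by
      have : (n : ℝ) ≤ m := by exact_mod_cast hnm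
      gcongr
    linarith
  have h2 : (⋂ n : ℕ, cap K l (s - 1 / ((n : ℝ) + 1))) = cap K l s := by
    apply Subset.antisymm
    · intro x hx
      rw [mem_iInter] at hx
      refine ⟨(hx 0).1, ?_⟩
      have h3 : Tendsto (fun n : ℕ => s - 1 / ((n : ℝ) + 1)) atTop (𝓝 (s - 0)) :=
        tendsto_const_nhds.sub tendsto_one_div_add_atTop_nhds_zero_nat
      rw [sub_zero] at h3
      exact le_of_tendsto h3 (Filter.Eventually.of_forall fun n => (hx n).2)
    · refine subset_iInter fun n => cap_anti K l ?_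
      have : (0 : ℝ) ≤ 1 / ((n : ℝ) + 1) := by positivity
      linarith
  rw [h2] at h1
  obtain ⟨n, hn⟩ := ((h1.eventually (gt_mem_nhds hs')).exists)
  have h4 : s - 1 / ((n : ℝ) + 1) < s := by
    have : (0 : ℝ) < 1 / ((n : ℝ) + 1) := by positivity
    linarith
  refine Filter.mem_of_superset (Ioi_mem_nhds h4) fun s' hs' => ?_
  exact lt_of_le_of_lt (measure_mono (cap_anti K l (le_of_lt hs'))) hn

theorem vm : S_VM := by
  intro V _ _ _ _ _ _ K hK
  refine measurable_of_Iio fun t => IsOpen.measurableSet ?_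
  have h1 : vf K ⁻¹' Iio t = ⋃ l : V →L[ℝ] ℝ, l ⁻¹' {s : ℝ | volume (cap K l s) < t} := by
    ext x
    simp only [mem_preimage, mem_Iio, mem_iUnion, mem_ofPred_eq]
    unfold vf
    exact iInf_lt_iff
  rw [h1]
  exact isOpen_iUnion fun l => (open_lt K hK l t).preimage l.continuous

end Pool.Agent.W762.RP
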